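import Mathlib
import Pool.Agent.H.MP_1f2de8_an.E

/-! Combinatorial part of the assembly for MP_1f2de8_an: the coefficients `b α n` of
`(∑ B_k z^k)^α`. -/

set_option autoImplicit false

open Finset PowerSeries
open Pool.Agent.H.MP_1f2de8_an

namespace Pool.Agent.U191.AC

/-- `B α k = (1/(1+αk)) · (2/α)(2/α+1)⋯(2/α+k-1)/k!`. -/
noncomputable def B (α : ℝ) (k : ℕ) : ℝ := (∏ i ∈ range k, ((2 / α + i) / (i + 1))) / (1 + α * k)

/-- The coefficients of `(∑ B_k z^k)^α`. -/
noncomputable def b (α : ℝ) : ℕ → ℝ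
  | 0 => 1
  | n + 1 => (∑ i : Fin (n + 1), (α * ((n : ℝ) + 1 - (i : ℕ)) - (i : ℕ)) * B α (n + 1 - i) * b α i) / (n + 1)

noncomputable def dd (α : ℝ) (k : ℕ) : ℝ := ∏ i ∈ range k, ((2 / α + i) / (i + 1))

noncomputable def cc (α : ℝ) : ℕ → ℝ
  | 0 => 1
  | k + 1 => (k + 1 - 1 / α) / (1 / α + (k + 1)) * cc α k

theorem cc_zero (α : ℝ) : cc α 0 = 1 := rfl

theorem cc_succ (α : ℝ) (k : ℕ) : cc α (k + 1) = (k + 1 - 1 / α) / (1 / α + (k + 1)) * cc α k := rfl

theorem dd_ode (α : ℝ) : (1 - X) * d⁄dX ℝ (PowerSeries.mk (dd α)) = C (2 / α) * PowerSeries.mk (dd α) := by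
  have hs : ∀ k : ℕ, dd α (k + 1) * (k + 1) = (2 / α + k) * dd α k := fun k => by
    rw [dd, prod_range_succ, ← dd]
    have : (k : ℝ) + 1 ≠ 0 := by positivity
    field_simp
  ext k
  rcases k with _ | k
  · have := hs 0
    rw [sub_mul, one_mul, map_sub, coeff_zero_X_mul, coeff_derivative, coeff_C_mul]
    simp only [coeff_mk, Nat.cast_zero, zero_add, mul_one, add_zero, sub_zero] at this ⊢
    exact this
  · have h1 := hs (k + 1)
    have h2 := hs k
    simp only [sub_mul, one_mul, map_sub, coeff_succ_X_mul, coeff_derivative, coeff_mk, coeff_C_mul]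
    push_cast at h1 ⊢
    linear_combination h1

theorem cc_ode {α : ℝ} (h0 : 0 < α) : (1 - X) * (X * d⁄dX ℝ (PowerSeries.mk (cc α))) +
    (C (1 / α) + C (1 / α - 1) * X) * PowerSeries.mk (cc α) = C (1 / α) := by
  have hb : 0 < 1 / α := by positivity
  have hs : ∀ k : ℕ, (1 / α + (k + 1)) * cc α (k + 1) = (k + 1 - 1 / α) * cc α k := fun k => by
    rw [cc_succ]
    have : 1 / α + ((k : ℝ) + 1) ≠ 0 := by positivity
    field_simp
  generalize 1 / α = β at *
  have hK : ∀ k, coeff k (X * d⁄dX ℝ (PowerSeries.mk (cc α))) = k * cc α k := fun k => by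
    rw [xd, coeff_mk]
  ext k
  rcases k with _ | k
  · simp [cc_zero]
  · have := hs k
    simp only [sub_mul, add_mul, one_mul, mul_assoc, map_sub, map_add, coeff_succ_X_mul, coeff_C_mul, coeff_mk, hK]
    rw [coeff_C, if_neg k.succ_ne_zero]
    push_cast
    linear_combination this

theorem mkB {α : ℝ} (h0 : 0 < α) :
    PowerSeries.mk (B α) = PowerSeries.mk (dd α) * ((1 - X) * PowerSeries.mk (cc α)) := by
  have hα : C α * C (1 / α) = (1 : ℝ⟦X⟧) := by rw [← map_mul, mul_one_div_cancel h0.ne', map_one]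
  have h2 : C (2 / α) = 2 * C (R := ℝ) (1 / α) := by
    rw [← map_ofNat (C (R := ℝ)) 2, ← map_mul]; congr 1; ring
  have d1 := dd_ode α
  have c1 := cc_ode h0
  have key : PowerSeries.mk (dd α) * ((1 - X) * PowerSeries.mk (cc α)) +
      C α * (X * d⁄dX ℝ (PowerSeries.mk (dd α) * ((1 - X) * PowerSeries.mk (cc α)))) =
      PowerSeries.mk (dd α) := by
    simp only [Derivation.leibniz, map_sub, Derivation.map_one_eq_zero, derivative_X, smul_eq_mul]
    rw [h2] at d1
    have h3 : C (1 / α - 1) = C (1 / α) - (1 : ℝ⟦X⟧) := by rw [map_sub, map_one]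
    rw [h3] at c1
    linear_combination C α * X * PowerSeries.mk (cc α) * d1 + C α * PowerSeries.mk (dd α) * c1 +
      PowerSeries.mk (dd α) * (1 - (1 - X) * PowerSeries.mk (cc α)) * hα
  ext k
  have := congrArg (coeff k) key
  rw [map_add, coeff_C_mul, xd, coeff_mk] at this
  have h1 : 1 + α * (k : ℝ) ≠ 0 := by positivity
  rw [coeff_mk, B, ← dd, div_eq_iff h1]
  linarith

theorem b_ode {α : ℝ} (h0 : 0 < α) : X * d⁄dX ℝ (PowerSeries.mk (b α)) * PowerSeries.mk (B α) =
    C α * PowerSeries.mk (b α) * (X * d⁄dX ℝ (PowerSeries.mk (B α))) := by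
  have B0 : B α 0 = 1 := by simp [B]
  ext n
  rw [coeff_mul, mul_assoc, coeff_C_mul, coeff_mul]
  simp only [xd, coeff_mk]
  rw [Finset.mul_sum, Nat.sum_antidiagonal_eq_sum_range_succ_mk, Nat.sum_antidiagonal_eq_sum_range_succ_mk]
  rcases n with _ | n
  · simp
  · rw [sum_range_succ, sum_range_succ (fun i => α * (b α i * (((n + 1 - i : ℕ) : ℝ) * B α (n + 1 - i))))]
    simp only [Nat.sub_self, B0, mul_one, Nat.cast_zero, zero_mul, mul_zero, add_zero]
    rw [b, Nat.cast_add, Nat.cast_one, mul_div_cancel₀ _ (by positivity), Fin.sum_univ_eq_sum_range (fun i => (α * ((n : ℝ) + 1 - i) - i) *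
      B α (n + 1 - i) * b α i) (n + 1), ← sum_add_distrib]
    refine sum_congr rfl fun i hi => ?_
    have : i ≤ n + 1 := by simp at hi; omega
    push_cast [Nat.cast_sub this]
    ring

theorem b_phi {α : ℝ} (h0 : 0 < α) {Φ : ℝ⟦X⟧} (hΦ : Φ * ((1 - X) * PowerSeries.mk (cc α)) = 1) :
    X * d⁄dX ℝ (PowerSeries.mk (b α)) = (Φ - 1) * PowerSeries.mk (b α) := by
  have hα : C α * C (1 / α) = (1 : ℝ⟦X⟧) := by rw [← map_mul, mul_one_div_cancel h0.ne', map_one]
  have e := mkB h0
  have B0 : B α 0 = 1 := by simp [B]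
  have ne : PowerSeries.mk (B α) ≠ 0 := fun h => by
    have := congrArg (coeff 0) h
    simp [B0] at this
  have key : PowerSeries.mk (B α) + C α * (X * d⁄dX ℝ (PowerSeries.mk (B α))) = PowerSeries.mk (dd α) := by
    ext k
    rw [map_add, coeff_C_mul, xd, coeff_mk, coeff_mk, B, ← dd]
    have h1 : 1 + α * (k : ℝ) ≠ 0 := by positivity
    field_simp
  refine mul_right_cancel₀ ne ?_
  rw [b_ode h0]
  linear_combination PowerSeries.mk (b α) * key - Φ * PowerSeries.mk (b α) * e -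
    PowerSeries.mk (b α) * PowerSeries.mk (dd α) * hΦ

/-- uniqueness for `X U' = Q U`. -/
theorem uniq {U V Q : ℂ⟦X⟧} (Q0 : constantCoeff Q = 0) (h0 : constantCoeff U = constantCoeff V)
    (hU : X * d⁄dX ℂ U = Q * U) (hV : X * d⁄dX ℂ V = Q * V) : U = V := by
  ext n
  induction n using Nat.strong_induction_on with
  | _ n ih =>
    rcases n with _ | n
    · simpa using h0
    have e := congrArg (coeff (n + 1)) hU
    have e2 := congrArg (coeff (n + 1)) hV
    rw [xd, coeff_mul, Nat.sum_antidiagonal_succ] at e e2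
    simp only [coeff_zero_eq_constantCoeff, Q0, zero_mul, zero_add] at e e2
    rw [sum_congr rfl fun p hp => by rw [ih p.2 (by have := mem_antidiagonal.1 hp; omega)], ← e2] at e
    exact mul_left_cancel₀ (Nat.cast_ne_zero.2 n.succ_ne_zero) e

end Pool.Agent.U191.AC
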