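import Mathlib
import Pool.Agent.U191.AC.Comb

/-! Assembly for MP_1f2de8_an: the coefficient problem for alpha-convex functions. -/

set_option autoImplicit false

open Filter Topology Metric Set Complex PowerSeries
open Pool.Agent.H.MP_7a60ac_an Pool.Agent.H.MP_0e1b7e_an Pool.Agent.H.MP_1f2de8_an

namespace Pool.Agent.U191.AC

/-- The class `M(α)` of `α`-convex (Mocanu) functions: `f` is analytic and univalent in the unit
disc, `f(0) = 0`, `f'(0) = 1` and `Re[α(1 + z f''/f') + (1-α) z f'/f] > 0` for `0 < |z| < 1`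
(at `z = 0` the bracket is `1` by continuity). -/
structure IsMocanu (α : ℝ) (f : ℂ → ℂ) : Prop where
  diff : DifferentiableOn ℂ f (ball 0 1)
  inj : InjOn f (ball 0 1)
  map_zero : f 0 = 0
  deriv_zero : deriv f 0 = 1
  re_pos : ∀ z ∈ ball (0 : ℂ) 1, z ≠ 0 →
    0 < ((α : ℂ) * (1 + z * deriv (deriv f) z / deriv f z) +
      (1 - (α : ℂ)) * (z * deriv f z / f z)).re

variable {α : ℝ}

/-- the data of the extremal function -/
theorem exW (h0 : 0 < α) (h1 : α < 1) : ∃ (W : ℂ → ℂ) (Φ : ℝ⟦X⟧), DifferentiableOn ℂ W (ball 0 1) ∧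
    W 0 = 1 ∧ (deriv W 0).re < 0 ∧
    (∀ z ∈ ball (0 : ℂ) 1, α * (z * deriv W z) * (1 - z) + (1 + z) * W z = 1 - z) ∧
    (∀ z ∈ ball (0 : ℂ) 1, W z ≠ 0 ∧ 0 < (1 / W z).re) ∧
    Φ * ((1 - X) * PowerSeries.mk (cc α)) = 1 ∧
    ts (fun z => 1 / W z) = PowerSeries.map ofRealHom Φ := by
  have hc : ∀ k : ℕ, (1 + α * (k + 1)) * cc α (k + 1) = (α * (k + 1) - 1) * cc α k := fun k => by
    rw [cc_succ]
    have h3 : 1 / α + ((k : ℝ) + 1) ≠ 0 := by positivity
    field_simp
  obtain ⟨W, dW, tW, o⟩ := exF h0 (cc_zero α) hc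
  have b := ball_mem_nhds (0 : ℂ) one_pos
  have aW := dW.analyticAt b
  have W0 : W 0 = 1 := by
    have := congrArg (coeff 0) tW
    rw [sub_mul, one_mul, map_sub, coeff_zero_X_mul, PowerSeries.coeff_map, coeff_mk, cc_zero, sub_zero,
      ts, coeff_mk] at this
    simpa [co] using this
  have W1 : deriv W 0 = -2 / (1 + α) := by
    have := congrArg (coeff 1) tW
    rw [show coeff 1 (ts W) = deriv W 0 by simp [ts, co, iteratedDeriv_one]] at this
    rw [this, sub_mul, one_mul, map_sub, coeff_succ_X_mul]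
    have := hc 0
    simp [cc_zero] at this
    have h4 : cc α 1 = (α - 1) / (1 + α) := by
      rw [eq_div_iff (by positivity)]; linarith
    have h5 : (1 + (α : ℂ)) ≠ 0 := by exact_mod_cast (show (1 + α : ℝ) ≠ 0 by positivity)
    simp [cc_zero, h4]
    field_simp
    ring
  have W1' : (deriv W 0).re < 0 := by
    rw [W1, show (-2 / (1 + (α : ℂ))) = ((-2 / (1 + α) : ℝ) : ℂ) by push_cast; ring, ofReal_re]
    exact div_neg_of_neg_of_pos (by norm_num) (by positivity)
  have nz : ∀ z ∈ ball (0 : ℂ) 1, W z ≠ 0 ∧ 0 < (1 / W z).re := fun z hz => by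
    obtain ⟨c, h1, h2⟩ := exb h0 dW W0 o z hz
    have c1 := h1.trans_lt (mem_ball_zero_iff.1 hz)
    have := ne1 c1
    have := n1 c1
    rw [← h2]
    refine ⟨div_ne_zero ‹_› ‹_›, ?_⟩
    have k := qr (z := -c) (by simpa using c1)
    rw [show (1 / ((1 - c) / (1 + c))) = (1 - -c) / (1 + -c) by
      rw [one_div_div]; ring]
    exact k
  have u : constantCoeff ((1 - X) * PowerSeries.mk (cc α)) ≠ 0 := by simp [cc_zero]
  refine ⟨W, ((1 - X) * PowerSeries.mk (cc α))⁻¹, dW, W0, W1', o, nz,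
    PowerSeries.inv_mul_cancel _ u, ?_⟩
  have dΦ : DifferentiableOn ℂ (fun z => 1 / W z) (ball 0 1) :=
    DifferentiableOn.div (by fun_prop) dW fun z hz => (nz z hz).1
  have e1 : ts (fun z => 1 / W z) * ts W = 1 := by
    rw [← ts_mul (dΦ.analyticAt b) aW, ts_congr (g := fun _ => 1), ts_const, map_one]
    exact mem_of_superset b fun z hz => div_mul_cancel₀ _ (nz z hz).1
  have e2 : PowerSeries.map ofRealHom ((1 - X) * PowerSeries.mk (cc α))⁻¹ * ts W = 1 := by
    have := congrArg (PowerSeries.map ofRealHom) (PowerSeries.inv_mul_cancel _ u)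
    rw [map_mul, map_mul, map_sub, map_one, PowerSeries.map_X] at this
    rw [tW]; exact this
  exact mul_right_cancel₀ (right_ne_zero_of_mul_eq_one e1) (e1.trans e2.symm)

theorem upper (h0 : 0 < α) (h1 : α < 1) {f : ℂ → ℂ} (hf : IsMocanu α f) (n : ℕ) :
    ‖co f (n + 1)‖ ≤ b α n := by
  obtain ⟨W, Φ, dW, W0, W1, o, nz, hΦ, tΦ⟩ := exW h0 h1
  have bb := ball_mem_nhds (0 : ℂ) one_pos
  have m0 := mem_ball_self (x := (0 : ℂ)) one_pos
  -- the function `h = f / z`
  obtain ⟨h, hh⟩ : ∃ h, h = dslope f 0 := ⟨_, rfl⟩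
  have dh : DifferentiableOn ℂ h (ball 0 1) := hh ▸ (Complex.differentiableOn_dslope bb).2 hf.diff
  have h00 : h 0 = 1 := by rw [hh, dslope_same, hf.deriv_zero]
  have hfh : ∀ z, f z = z * h z := fun z => by
    have := sub_smul_dslope f 0 z
    rw [hf.map_zero, sub_zero, sub_zero, smul_eq_mul, ← hh] at this
    exact this.symm
  have df := hf.diff
  have dh' := dh.deriv isOpen_ball
  have df' := df.deriv isOpen_ball
  have ef : f = fun z => z * h z := funext hfh
  have hd : ∀ z ∈ ball (0 : ℂ) 1, deriv f z = h z + z * deriv h z := fun z hz => by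
    have := (hasDerivAt_id' z).fun_mul (dh.differentiableAt (isOpen_ball.mem_nhds hz)).hasDerivAt
    rw [ef, this.deriv]; ring
  have hn : ∀ z ∈ ball (0 : ℂ) 1, h z ≠ 0 := fun z hz e => by
    rcases eq_or_ne z 0 with rfl | z0
    · simp [h00] at e
    · exact z0 (hf.inj hz m0 (by rw [hfh, e, mul_zero, hf.map_zero]))
  obtain ⟨-, -, dn⟩ := inv_an isOpen_ball (hf.diff.analyticOnNhd isOpen_ball) hf.inj
  -- the functions `w = h / f'` and `p`
  obtain ⟨w, hw⟩ : ∃ w : ℂ → ℂ, w = fun z => h z / deriv f z := ⟨_, rfl⟩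
  obtain ⟨p, hp⟩ : ∃ p : ℂ → ℂ, p = fun z => α * (1 + z * deriv (deriv f) z / deriv f z) +
    (1 - α) * (deriv f z / h z) := ⟨_, rfl⟩
  have dw : DifferentiableOn ℂ w (ball 0 1) := hw ▸ dh.div df' dn
  have dp : DifferentiableOn ℂ p (ball 0 1) := by
    have d1 := df'.deriv isOpen_ball
    have d2 : DifferentiableOn ℂ (fun z => z * deriv (deriv f) z / deriv f z) (ball 0 1) :=
      DifferentiableOn.div (by fun_prop) df' dn
    have d3 : DifferentiableOn ℂ (fun z => deriv f z / h z) (ball 0 1) := df'.div dh hn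
    rw [hp]; fun_prop
  have w0 : w 0 = 1 := by simp [hw, h00, hf.deriv_zero]
  have p0 : p 0 = 1 := by simp [hp, h00, hf.deriv_zero]
  have pr : ∀ z ∈ ball (0 : ℂ) 1, 0 < (p z).re := fun z hz => by
    rcases eq_or_ne z 0 with rfl | z0
    · simp [p0]
    · have := hf.re_pos z hz z0
      rw [hfh z, mul_div_mul_left _ _ z0] at this
      rw [hp]; exact this
  have ow : ∀ z ∈ ball (0 : ℂ) 1, α * (z * deriv w z) + p z * w z = 1 := fun z hz => by
    have n := isOpen_ball.mem_nhds hz
    have := (dh.differentiableAt n).hasDerivAt.fun_div (df'.differentiableAt n).hasDerivAt (dn z hz)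
    have a1 := dn z hz
    have a2 := hn z hz
    rw [hw, this.deriv, hp]
    have e := hd z hz
    clear this
    simp only []
    generalize deriv (deriv f) z = f2 at *
    generalize deriv f z = f1 at *
    generalize deriv h z = g1 at *
    generalize h z = g at *
    field_simp
    linear_combination (-α * f1) * e
  obtain ⟨ω, dω, ω0, hω⟩ := subW h0 dW W0 W1 o dw dp w0 p0 pr ow
  have ω1 : ∀ z ∈ ball (0 : ℂ) 1, ‖ω z‖ < 1 := fun z hz =>
    (hω z hz).1.trans_lt (mem_ball_zero_iff.1 hz)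
  obtain ⟨F, hF⟩ : ∃ F : ℂ → ℂ, F = fun z => 1 / W z := ⟨_, rfl⟩
  have dF : DifferentiableOn ℂ F (ball 0 1) :=
    hF ▸ DifferentiableOn.div (by fun_prop) dW fun z hz => (nz z hz).1
  rw [← hF] at tΦ
  have aF := dF.analyticAt bb
  have aω := dω.analyticAt bb
  have ah := dh.analyticAt bb
  have ah' := dh'.analyticAt bb
  have aFω : AnalyticAt ℂ (fun z => F (ω z)) 0 :=
    AnalyticAt.fun_comp_of_eq aF aω ω0
  have F0 : F 0 = 1 := by simp [hF, W0]
  -- the logarithmic derivative of `h`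
  have hU : X * d⁄dX ℂ (ts h) = (ts (fun z => F (ω z)) - 1) * ts h := by
    have e1 : ts (fun z => z * deriv h z) = X * d⁄dX ℂ (ts h) := by
      rw [ts_mul (f := fun z => z) (by fun_prop) ah', ts_id, ts_deriv]
    have e2 : ts (fun z => (F (ω z) + (-1 : ℂ)) * h z) = (ts (fun z => F (ω z)) - 1) * ts h := by
      rw [ts_mul (f := fun z => F (ω z) + -1) (aFω.add analyticAt_const) ah,
        ts_add aFω analyticAt_const, ts_const]
      simp [sub_eq_add_neg]
    rw [← e1, ← e2]
    refine ts_congr (mem_of_superset bb fun z hz => ?_)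
    have a1 := dn z hz
    have a2 := hn z hz
    have e := hd z hz
    show z * deriv h z = (F (ω z) + -1) * h z
    rw [hF]
    simp only [(hω z hz).2, hw]
    field_simp
    rw [e]; ring
  have c0 : cc α 0 = 1 := rfl
  have hb1 : 1 < 1 / α := by rw [lt_div_iff₀ h0]; linarith
  obtain ⟨μ, χ, hμ, h4, χ0, χ1, hdec⟩ := dec hb1 c0 (fun k => cc_succ α k) hΦ
  have Φ0 : constantCoeff Φ = 1 := by simpa [c0] using congrArg constantCoeff hΦ
  have hv : ∀ j, coeff j (Φ - 1) = ∑ i ∈ Finset.range j, μ i + χ j := fun j => by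
    rcases j with _ | j
    · simp [Φ0, χ0]
    · rw [map_sub, (hdec j).1, coeff_one, if_neg j.succ_ne_zero, sub_zero]
  refine (le_of_eq ?_).trans ((maj (U := ts h) (Q := ts (fun z => F (ω z)) - 1)
    (V := PowerSeries.mk (b α)) (Φ := Φ - 1) (by simp [ts, co, h00]) (by simp [b]) hU
    (by simp [ts, co, ω0, F0]) (b_phi h0 hΦ) (by simp [Φ0]) (fun j => ?_) (fun m => ?_) n).trans_eq
    (coeff_mk _ _))
  · congr 1
    have : ts f = X * ts h := by
      rw [ef, ts_mul (f := fun z => z) (by fun_prop) ah, ts_id]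
    have := congrArg (coeff (n + 1)) this
    rwa [coeff_succ_X_mul, ts, coeff_mk] at this
  · rw [map_sub, coeff_one, if_neg j.succ_ne_zero, sub_zero]; exact (hdec j).2
  · have s := schur dω ω0 (fun z hz => ω1 z hz) (m := m) hμ (h4 m) χ0 χ1
    rw [P] at s
    have t := ts_comp aF aω ω0 (m + 1)
    have cF : ∀ j, co F j = ((coeff j Φ : ℝ) : ℂ) := fun j => by
      have := congrArg (coeff j) tΦ
      rwa [PowerSeries.coeff_map, ts, coeff_mk] at this
    rw [Finset.sum_congr rfl fun j _ => hv j]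
    refine (le_of_eq (Finset.sum_congr rfl fun j hj => ?_)).trans s
    congr 1
    have := X_pow_dvd_iff.1 t j (by simpa using hj)
    rw [map_sub, sub_eq_zero] at this
    rw [map_sub, this, ← map_sub]
    congr 1
    simp only [T, ← hv]
    rw [Finset.sum_range_succ', Finset.sum_range_succ']
    simp only [cF, pow_zero, mul_one, map_sub, coeff_zero_eq_constantCoeff, Φ0, constantCoeff_one,
      ofReal_one, sub_self, ofReal_zero, map_zero, add_zero, map_one, add_sub_cancel_right]
    refine Finset.sum_congr rfl fun k _ => ?_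
    rw [coeff_one, if_neg k.succ_ne_zero, sub_zero]

end Pool.Agent.U191.AC
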