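import Mathlib
import Pool.Agent.U191.AC.Main

/-! The extremal function for MP_1f2de8_an. -/

set_option autoImplicit false

open Filter Topology Metric Set Complex PowerSeries
open Pool.Agent.H.MP_7a60ac_an Pool.Agent.H.MP_0e1b7e_an Pool.Agent.H.MP_1f2de8_an

namespace Pool.Agent.U191.AC

variable {α : ℝ}

/-- starlike functions `z exp (G z)` are univalent -/
theorem star_inj {G g : ℂ → ℂ} (hG : ∀ z ∈ ball (0 : ℂ) 1, HasDerivAt G (g z) z)
    (hr : ∀ z ∈ ball (0 : ℂ) 1, 0 < (1 + z * g z).re) :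
    InjOn (fun z => z * exp (G z)) (ball 0 1) := by
  have eb : ∀ s : ℂ, s.re < 0 → exp s ∈ ball (0 : ℂ) 1 := fun s hs => by
    rw [mem_ball_zero_iff, norm_exp]; exact Real.exp_zero ▸ Real.exp_lt_exp.2 hs
  have inj : InjOn (fun s => s + G (exp s)) {s : ℂ | s.re < 0} := by
    refine nw (convex_halfSpace_re_lt _) fun s hs => ⟨1 + exp s * g (exp s), hr _ (eb s hs), ?_⟩
    have := (HasDerivAt.comp s (h₂ := G) (hG _ (eb s hs)) (hasDerivAt_exp s))
    have := (hasDerivAt_id' s).add this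
    refine this.congr_deriv ?_
    ring
  have ex : ∀ z ∈ ball (0 : ℂ) 1, z ≠ 0 → ∃ s : ℂ, s.re < 0 ∧ exp s = z := fun z hz z0 =>
    ⟨log z, by rw [log_re]; exact Real.log_neg (norm_pos_iff.2 z0) (mem_ball_zero_iff.1 hz),
      exp_log z0⟩
  intro x hx y hy e
  simp only at e
  rcases eq_or_ne x 0 with rfl | x0
  · rw [zero_mul, eq_comm, mul_eq_zero] at e
    exact (e.resolve_right (exp_ne_zero _)).symm
  rcases eq_or_ne y 0 with rfl | y0
  · rw [zero_mul, mul_eq_zero] at e
    exact e.resolve_right (exp_ne_zero _)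
  obtain ⟨s, hs, rfl⟩ := ex x hx x0
  obtain ⟨t, ht, rfl⟩ := ex y hy y0
  rw [← exp_add, ← exp_add, exp_eq_exp_iff_exists_int] at e
  obtain ⟨n, hn⟩ := e
  have et : exp (t + n * (2 * Real.pi * I)) = exp t := by
    rw [exp_add, exp_int_mul_two_pi_mul_I, mul_one]
  have ht' : (t + n * (2 * Real.pi * I)).re < 0 := by
    have : (n * (2 * Real.pi * I) : ℂ).re = 0 := by simp
    rw [add_re, this, add_zero]; exact ht
  have := inj (show s ∈ {s : ℂ | s.re < 0} from hs)
    (show t + n * (2 * Real.pi * I) ∈ {s : ℂ | s.re < 0} from ht') (by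
      simp only [et]; rw [hn]; ring)
  rw [this, et]

theorem extremal (h0 : 0 < α) (h1 : α < 1) : ∃ f : ℂ → ℂ, IsMocanu α f ∧
    ∀ n : ℕ, co f (n + 1) = (b α n : ℂ) := by
  obtain ⟨W, Φ, dW, W0, W1, o, nz, hΦ, tΦ⟩ := exW h0 h1
  have bb := ball_mem_nhds (0 : ℂ) one_pos
  have m0 := mem_ball_self (x := (0 : ℂ)) one_pos
  obtain ⟨F, hF⟩ : ∃ F : ℂ → ℂ, F = fun z => 1 / W z := ⟨_, rfl⟩
  have dF : DifferentiableOn ℂ F (ball 0 1) :=
    hF ▸ DifferentiableOn.div (by fun_prop) dW fun z hz => (nz z hz).1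
  rw [← hF] at tΦ
  have F0 : F 0 = 1 := by simp [hF, W0]
  have c0 : cc α 0 = 1 := rfl
  have Φ0 : constantCoeff Φ = 1 := by simpa [c0] using congrArg constantCoeff hΦ
  -- primitive of `(F - 1)/z`
  obtain ⟨g, hg⟩ : ∃ g, g = dslope F 0 := ⟨_, rfl⟩
  have dg : DifferentiableOn ℂ g (ball 0 1) := hg ▸ (Complex.differentiableOn_dslope bb).2 dF
  have hgF : ∀ z, F z = 1 + z * g z := fun z => by
    have := sub_smul_dslope F 0 z
    rw [F0, sub_zero, smul_eq_mul, ← hg] at this
    rw [this]; ring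
  obtain ⟨G1, hG1⟩ := dg.isExactOn_ball
  obtain ⟨G, hGd⟩ : ∃ G : ℂ → ℂ, G = fun z => G1 z - G1 0 := ⟨_, rfl⟩
  have hG : ∀ z ∈ ball (0 : ℂ) 1, HasDerivAt G (g z) z := fun z hz => by
    rw [hGd]; exact (hG1 z hz).sub_const _
  have G0 : G 0 = 0 := by simp [hGd]
  obtain ⟨h, hh⟩ : ∃ h : ℂ → ℂ, h = fun z => exp (G z) := ⟨_, rfl⟩
  have hh' : ∀ z ∈ ball (0 : ℂ) 1, HasDerivAt h (h z * g z) z := fun z hz => by
    rw [hh]; exact (hG z hz).cexp
  have dh : DifferentiableOn ℂ h (ball 0 1) := fun z hz =>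
    (hh' z hz).differentiableAt.differentiableWithinAt
  have h00 : h 0 = 1 := by simp [hh, G0]
  have hn : ∀ z, h z ≠ 0 := fun z => by rw [hh]; exact exp_ne_zero _
  obtain ⟨f, hf⟩ : ∃ f : ℂ → ℂ, f = fun z => z * h z := ⟨_, rfl⟩
  have df : DifferentiableOn ℂ f (ball 0 1) := by rw [hf]; fun_prop
  have hd : ∀ z ∈ ball (0 : ℂ) 1, deriv f z = F z * h z := fun z hz => by
    have := (hasDerivAt_id' z).fun_mul (hh' z hz)
    rw [hf, this.deriv, hgF z]; ring
  have hd2 : ∀ z ∈ ball (0 : ℂ) 1, deriv (deriv f) z = deriv F z * h z + F z * (h z * g z) :=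
    fun z hz => by
    have n := isOpen_ball.mem_nhds hz
    have e : deriv f =ᶠ[𝓝 z] fun z => F z * h z := mem_of_superset n hd
    rw [e.deriv_eq, ((dF.differentiableAt n).hasDerivAt.fun_mul (hh' z hz)).deriv]
  have hFd : ∀ z ∈ ball (0 : ℂ) 1, deriv F z = - deriv W z / W z ^ 2 := fun z hz => by
    have n := isOpen_ball.mem_nhds hz
    have := (hasDerivAt_const z (1 : ℂ)).fun_div (dW.differentiableAt n).hasDerivAt (nz z hz).1
    rw [hF, this.deriv]; simp
  have ts_f : ts f = X * ts h := by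
    rw [hf, ts_mul (f := fun z => z) (by fun_prop) (dh.analyticAt bb), ts_id]
  have key : ts h = PowerSeries.map ofRealHom (PowerSeries.mk (b α)) := by
    refine uniq (Q := PowerSeries.map ofRealHom (Φ - 1)) ?_ ?_ ?_ ?_
    · rw [← coeff_zero_eq_constantCoeff_apply, PowerSeries.coeff_map, coeff_zero_eq_constantCoeff_apply, map_sub,
        Φ0]; simp
    · rw [← coeff_zero_eq_constantCoeff_apply, ← coeff_zero_eq_constantCoeff_apply, PowerSeries.coeff_map, coeff_mk,
        ts, coeff_mk]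
      simp [co, h00, b]
    · have e1 : ts (fun z => z * deriv h z) = X * d⁄dX ℂ (ts h) := by
        rw [ts_mul (f := fun z => z) (by fun_prop) ((dh.deriv isOpen_ball).analyticAt bb), ts_id, ts_deriv]
      have aF := dF.analyticAt bb
      have e2 : ts (fun z => (F z + (-1 : ℂ)) * h z) = (ts F - 1) * ts h := by
        rw [ts_mul (f := fun z => F z + -1) (aF.add analyticAt_const) (dh.analyticAt bb),
          ts_add aF analyticAt_const, ts_const]
        simp [sub_eq_add_neg]
      rw [map_sub, map_one, ← tΦ, ← e1, ← e2]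
      refine ts_congr (mem_of_superset bb fun z hz => ?_)
      show z * deriv h z = (F z + -1) * h z
      rw [(hh' z hz).deriv, hgF z]; ring
    · have := congrArg (PowerSeries.map ofRealHom) (b_phi h0 hΦ)
      rw [map_mul, map_mul, PowerSeries.map_X] at this
      rw [← this]
      congr 1
      ext k
      simp [coeff_derivative, PowerSeries.coeff_map]
  refine ⟨f, ⟨df, ?_, by simp [hf], by rw [hd 0 m0, F0, h00, one_mul], fun z hz z0 => ?_⟩, fun n => ?_⟩
  · have := star_inj hG fun z hz => by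
      rw [← hgF z, hF]; exact (nz z hz).2
    rw [hf, hh]; exact this
  · have a1 := (nz z hz).1
    have a2 := hn z
    have a3 : F z ≠ 0 := by rw [hF]; exact one_div_ne_zero a1
    have z1 : ‖z‖ < 1 := mem_ball_zero_iff.1 hz
    have a4 := ne1 z1
    have k := (k_re (x := 1) (by simp) hz).2
    have hfz : f z = z * h z := by rw [hf]
    rw [hd2 z hz, hd z hz, hfz]
    rw [show (α : ℂ) * (1 + z * (deriv F z * h z + F z * (h z * g z)) / (F z * h z)) +
      (1 - (α : ℂ)) * (z * (F z * h z) / (z * h z)) = (1 + 1 * z) / (1 - 1 * z) by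
        have e1 : z * (deriv F z * h z + F z * (h z * g z)) / (F z * h z) = z * deriv F z / F z + z * g z := by
          field_simp
        have e2 : z * (F z * h z) / (z * h z) = F z := by field_simp
        have e3 : z * g z = F z - 1 := by rw [hgF z]; ring
        rw [e1, e2, e3, hFd z hz]
        have e4 : F z = 1 / W z := by rw [hF]
        rw [e4]
        have o' := o z hz
        rw [one_mul]
        field_simp
        linear_combination -o']
    exact k
  · have := congrArg (coeff (n + 1)) ts_f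
    rw [coeff_succ_X_mul, key, PowerSeries.coeff_map, coeff_mk, ts, coeff_mk] at this
    exact this

end Pool.Agent.U191.AC
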