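import Mathlib
import Pool.Agent.U191.AC.Extr

/-! Closed form of the numbers `b α n`. -/

set_option autoImplicit false

open Filter Topology Metric Set Complex PowerSeries
open Pool.Agent.H.MP_7a60ac_an Pool.Agent.H.MP_0e1b7e_an Pool.Agent.H.MP_1f2de8_an

namespace Pool.Agent.U191.AC

variable {α : ℝ}

theorem b_closed (h0 : 0 < α) (n : ℕ) :
    b α n = ∑ j ∈ Finset.range (n + 1), (∏ i ∈ Finset.range j, (α - i)) / j.factorial *
      coeff n ((PowerSeries.mk (B α) - 1) ^ j) := by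
  have B0 : B α 0 = 1 := by simp [B]
  obtain ⟨m, hm⟩ : ∃ m : ℝ⟦X⟧ →+* ℂ⟦X⟧, m = PowerSeries.map ofRealHom := ⟨_, rfl⟩
  have mC : ∀ x : ℝ, m (C x) = C (x : ℂ) := fun x => by rw [hm, PowerSeries.map_C]; rfl
  have mX : m X = X := by rw [hm, PowerSeries.map_X]
  have mc : ∀ (A : ℝ⟦X⟧) k, coeff k (m A) = ((coeff k A : ℝ) : ℂ) := fun A k => by
    rw [hm, PowerSeries.coeff_map]; rfl
  have md : ∀ A : ℝ⟦X⟧, m (d⁄dX ℝ A) = d⁄dX ℂ (m A) := fun A => by
    ext k; rw [mc, coeff_derivative, coeff_derivative, mc]; push_cast; ring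
  have ode : PowerSeries.mk (B α) * d⁄dX ℝ (PowerSeries.mk (b α)) =
      C α * d⁄dX ℝ (PowerSeries.mk (B α)) * PowerSeries.mk (b α) := by
    refine mul_left_cancel₀ (X_ne_zero (R := ℝ)) ?_
    linear_combination b_ode h0
  have p1 : IsPow n (m (PowerSeries.mk (B α))) (α : ℂ) (m (PowerSeries.mk (b α))) := by
    refine ⟨?_, ?_⟩
    · rw [← coeff_zero_eq_constantCoeff_apply, mc, coeff_mk, b, ofReal_one]
    · have := congrArg m ode
      rw [map_mul, map_mul, map_mul, md, md, mC] at this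
      rw [this, sub_self]; exact dvd_zero _
  have c0 : constantCoeff (m (PowerSeries.mk (B α) - 1)) = 0 := by
    rw [← coeff_zero_eq_constantCoeff_apply, mc]; simp [B0]
  have p2 := isPow_bin c0 α n
  rw [map_sub, map_one, add_sub_cancel] at p2
  have := p1.coeff_eq (by rw [← coeff_zero_eq_constantCoeff_apply, mc, coeff_mk, B0, ofReal_one]) p2
  have h2 : ((b α n : ℝ) : ℂ) = ((∑ j ∈ Finset.range (n + 1), (∏ i ∈ Finset.range j, (α - i)) / j.factorial *
      coeff n ((PowerSeries.mk (B α) - 1) ^ j) : ℝ) : ℂ) := by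
    rw [mc, coeff_mk] at this
    rw [this, map_sum]
    push_cast
    refine Finset.sum_congr rfl fun j _ => ?_
    rw [coeff_C_mul, bin, ← map_one m, ← map_sub, ← map_pow, mc]
    push_cast
    ring
  exact_mod_cast h2

end Pool.Agent.U191.AC
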